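import Pool.Agent.Q17.AM.Mgd

/-!
# The McKay–Galois equalities modulo a prime `r`

`IsIrr χ` (from `Pool.Agent.H254R3.IN.Defs`) says that `χ` is an irreducible complex character.
-/

set_option autoImplicit false

open scoped Classical

namespace Pool.Agent.Results.MP_1ae3da_al.CongruenceModuloR

open Pool.Agent.H254R3.IN (IsIrr)

/-- the irreducible characters of `G` of degree prime to `p` -/
def irrPrime (p : ℕ) (G : Type) [Group G] : Set (G → ℂ) :=
  {χ | IsIrr χ ∧ ∃ n : ℕ, (n : ℂ) = χ 1 ∧ ¬ p ∣ n}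

/-- the members of `X` fixed by `s` -/
def fixed {G : Type} (X : Set (G → ℂ)) (s : ℂ ≃+* ℂ) : Set (G → ℂ) :=
  {χ | χ ∈ X ∧ ∀ g, s (χ g) = χ g}

/-- the number of Galois conjugates of `χ`; for a character it is the degree of `ℚ(χ)` over `ℚ` -/
noncomputable def conjugates {G : Type} (χ : G → ℂ) : ℕ :=
  {ψ : G → ℂ | ∃ s : ℂ ≃+* ℂ, ψ = fun g => s (χ g)}.ncard

/-- the order of the automorphism `s` on the `n`-th roots of unity is prime to `r` -/
def OrderPrimeTo (r n : ℕ) (s : ℂ ≃+* ℂ) : Prop :=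
  ∃ j : ℕ, Nat.Coprime j r ∧ ∀ ζ : ℂ, ζ ^ n = 1 → (s ^ j) ζ = ζ

/-- the automorphisms `s` of `ℂ` such that for some `e` we have `s ζ = ζ ^ (p ^ e)` for all roots of
unity `ζ` of order prime to `p` -/
def navarroGroup (p : ℕ) : Set (ℂ ≃+* ℂ) :=
  {s | ∃ e : ℕ, ∀ n : ℕ, ¬ p ∣ n → ∀ ζ : ℂ, ζ ^ n = 1 → s ζ = ζ ^ (p ^ e)}

theorem navarro_pow {p : ℕ} {s : ℂ ≃+* ℂ} (h : s ∈ navarroGroup p) (u : ℕ) :
    s ^ u ∈ navarroGroup p := by
  obtain ⟨e, he⟩ := h
  induction u with
  | zero =>
      refine ⟨0, fun n _ ζ _ => ?_⟩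
      rw [pow_zero, pow_zero, pow_one]
      rfl
  | succ u ih =>
      obtain ⟨f, hf⟩ := ih
      refine ⟨e + f, fun n hn ζ hζ => ?_⟩
      rw [pow_succ']
      change s ((s ^ u) ζ) = _
      rw [hf n hn ζ hζ, map_pow, he n hn ζ hζ, ← pow_mul, ← pow_add]

/-- the wreath product of `G` with the cyclic group of order `r` in its regular action -/
abbrev WreathCyclic (G : Type) [Group G] (r : ℕ) : Type :=
  (Multiplicative (ZMod r) → G) ⋊[mulAutArrow (G := Multiplicative (ZMod r))
    (A := Multiplicative (ZMod r)) (M := G)] Multiplicative (ZMod r)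

/-- The numbers of those members of the sets `X₁` and `X₂` which are fixed by `s` and have a number of
Galois conjugates prime to `r` (that is a field of values of degree prime to `r` over `ℚ`) are
congruent modulo `r`. -/
def Congruent {G H : Type} (r : ℕ) (s : ℂ ≃+* ℂ) (X₁ : Set (G → ℂ)) (X₂ : Set (H → ℂ)) : Prop :=
  ({χ | χ ∈ fixed X₁ s ∧ ¬ r ∣ conjugates χ}.ncard : ℤ) ≡
    ({χ | χ ∈ fixed X₂ s ∧ ¬ r ∣ conjugates χ}.ncard : ℤ) [ZMOD r]

/-- **Theorem.** Let `p` and `r ≠ p` be primes. Let `X` be a class of groups closed under isomorphism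
and finite direct powers (for instance all groups, or all abelian groups) and let `Y` be a class of
finite groups closed under the wreath product with the cyclic group of order `r` (for instance all
finite groups, or the groups with nonabelian composition factors in a given set). Let `T` be a set of
automorphisms of `ℂ` which is closed under powers. Suppose that for all `G` in `Y` with a Sylow
`p`-subgroup `P` in `X`, and all `s` in `T` of order prime to `r` on the `|G|`-th roots of unity, the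
numbers of irreducible characters of `G` and of `N_G(P)` which have a degree prime to `p`, are fixed
by `s` and have a field of values of degree prime to `r`, are congruent modulo `r`. Then for all these
`G`, `P`, `s`, the groups `G` and `N_G(P)` have the same number of irreducible characters of degree
prime to `p` fixed by `s`. This applies to `T = navarroGroup p`. -/
theorem result (p r : ℕ) [Fact p.Prime] [Fact r.Prime] (hpr : p ≠ r)
    (X Y : ∀ (P : Type) [Group P], Prop)
    (hX : ∀ (P Q : Type) [Group P] [Group Q], Nonempty (P ≃* Q) → X P → X Q)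
    (hX' : ∀ (P : Type) [Group P] (n : ℕ), 1 ≤ n → X P → X (Fin n → P))
    (hY : ∀ (G : Type) [Group G] [Finite G], Y G → Y (WreathCyclic G r)) :
    (∀ s ∈ navarroGroup p, ∀ u : ℕ, s ^ u ∈ navarroGroup p) ∧
    ∀ T : Set (ℂ ≃+* ℂ), (∀ s ∈ T, ∀ u : ℕ, s ^ u ∈ T) →
      (∀ (G : Type) [Group G] [Finite G], Y G → ∀ P : Sylow p G, X P →
        ∀ s ∈ T, OrderPrimeTo r (Nat.card G) s → Congruent r s (irrPrime p G)
          (irrPrime p (Subgroup.normalizer ((P : Subgroup G) : Set G)))) →
      ∀ (G : Type) [Group G] [Finite G], Y G → ∀ P : Sylow p G, X P →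
        ∀ s ∈ T, OrderPrimeTo r (Nat.card G) s → (fixed (irrPrime p G) s).ncard =
          (fixed (irrPrime p (Subgroup.normalizer ((P : Subgroup G) : Set G))) s).ncard := by
  refine ⟨fun s hs u => navarro_pow hs u, ?_⟩
  intro T hT h G _ _ hG P hXP s hs hR
  have hF : Fintype G := Fintype.ofFinite G
  refine Pool.Agent.Q17.AM.mgc p r hpr T hT (fun G _ P => (Finite G → Y G) ∧ X P) ?_ ?_ G P
    ⟨fun _ => hG, hXP⟩ s hs hR
  · rintro G _ _ P ⟨h2, h3⟩
    refine ⟨fun _ => hY G (h2 inferInstance), hX _ _ ⟨(Pool.Agent.Q17.AM.eDw P).symm⟩ ?_⟩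
    have : NeZero r := ⟨(Fact.out : r.Prime).ne_zero⟩
    exact Pool.Agent.Q17.AM.Cl.fun (X := X) ⟨hX, hX'⟩ h3
  · rintro G _ _ P ⟨h2, h3⟩ s hs hR
    have hN : Fintype (Pool.Agent.Q17.AM.NN (P : Subgroup G)) := Fintype.ofFinite _
    refine Pool.Agent.Q17.AM.mod_of_nc
      ((Pool.Agent.Q17.AM.ip_finite p).subset fun χ h => h.1)
      ((Pool.Agent.Q17.AM.ip_finite p).subset fun χ h => h.1)
      (Pool.Agent.Q17.AM.gst_fxd_ip p s) (Pool.Agent.Q17.AM.gst_fxd_ip p s) ?_
    exact (h G (h2 inferInstance) P h3 s hs hR).symm.dvd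

end Pool.Agent.Results.MP_1ae3da_al.CongruenceModuloR
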