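import Pool.Agent.Q1.MK.Trn

/-!
# The McKay–Galois conjecture for groups with a self-centralising coset, for all primes

All primes `p`, all finite groups `G` with a cyclic quotient `G / N` of `p`-power order. The
hypothesis is on the centralisers of the `p`-elements of one coset `yN` only, and the bijections
commute with all Galois automorphisms, not only with those of `𝓗`.
-/

namespace Pool.Agent.Results.MP_1ae3da_al.CosetReduction

open Pool.Agent.H254R3.IN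

/-- The irreducible characters of `G` of degree prime to `p`. -/
def IrrPrime (p : ℕ) (G : Type) [Group G] : Set (G → ℂ) :=
  {χ | IsIrr χ ∧ ∃ n : ℕ, (n : ℂ) = χ 1 ∧ ¬ p ∣ n}

/-- The automorphisms `σ` of `ℂ` for which there is `e ≥ 0` such that `σ(ξ) = ξ ^ (p ^ e)` for all
roots of unity `ξ` of order prime to `p`. -/
def HH (p : ℕ) : Set (ℂ ≃+* ℂ) :=
  {σ | ∃ e : ℕ, ∀ (m : ℕ) (ξ : ℂ), ¬ p ∣ m → ξ ^ m = 1 → σ ξ = ξ ^ p ^ e}

/-- There is a bijection `f : Irr_{p'}(K) → Irr_{p'}(L)` with `f(χ^σ) = f(χ)^σ` for all `σ ∈ S`. -/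
def PermIso (p : ℕ) (S : Set (ℂ ≃+* ℂ)) (K L : Type) [Group K] [Group L] : Prop :=
  ∃ f : IrrPrime p K ≃ IrrPrime p L, ∀ σ ∈ S, ∀ χ : IrrPrime p K,
    ∃ h : (fun g => σ ((χ : K → ℂ) g)) ∈ IrrPrime p K,
      (f ⟨fun g => σ ((χ : K → ℂ) g), h⟩ : L → ℂ) = fun k => σ ((f χ : L → ℂ) k)

theorem pi_trans {p : ℕ} {S : Set (ℂ ≃+* ℂ)} {K L M : Type} [Group K] [Group L] [Group M]
    (h1 : PermIso p S K L) (h2 : PermIso p S L M) : PermIso p S K M := by
  obtain ⟨f, hf⟩ := h1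
  obtain ⟨g, hg⟩ := h2
  refine ⟨f.trans g, fun σ hσ χ => ?_⟩
  obtain ⟨h3, h4⟩ := hf σ hσ χ
  obtain ⟨h5, h6⟩ := hg σ hσ (f χ)
  refine ⟨h3, ?_⟩
  have h7 : f ⟨fun g => σ ((χ : K → ℂ) g), h3⟩ = ⟨fun k => σ ((f χ : L → ℂ) k), h5⟩ :=
    Subtype.ext h4
  change (g (f ⟨fun g => σ ((χ : K → ℂ) g), h3⟩) : M → ℂ) = _
  rw [h7]
  exact h6

theorem pi_symm {p : ℕ} {S : Set (ℂ ≃+* ℂ)} {K L : Type} [Group K] [Group L]
    (h1 : PermIso p S K L) : PermIso p S L K := by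
  obtain ⟨f, hf⟩ := h1
  refine ⟨f.symm, fun σ hσ χ => ?_⟩
  obtain ⟨h3, h4⟩ := hf σ hσ (f.symm χ)
  rw [Equiv.apply_symm_apply] at h4
  have h5 : (fun k => σ ((χ : L → ℂ) k)) ∈ IrrPrime p L := by
    rw [← h4]
    exact (f _).2
  refine ⟨h5, ?_⟩
  have h6 : f ⟨fun g => σ ((f.symm χ : K → ℂ) g), h3⟩ = ⟨fun k => σ ((χ : L → ℂ) k), h5⟩ :=
    Subtype.ext h4
  rw [← h6, Equiv.symm_apply_apply]

/-- **Theorem.** Let `G` be a finite group, `N` a proper normal subgroup, `P` a Sylow `p`-subgroup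
of `G` and `y ∈ P` such that `G = N⟨y⟩`. Let `H` be a subgroup of `G` which contains `P` and the
centraliser in `G` of every element of `P ∩ yN`. Then
(1) `N_G(P)` is contained in `H`;
(2) there is a bijection `f : Irr_{p'}(G) → Irr_{p'}(H)` which commutes with ALL automorphisms `σ` of
`ℂ`; moreover `σ` fixes `χ` if and only if it fixes the restriction of `χ` to `H`, if and only if it
fixes `f(χ)` (so `ℚ(χ) = ℚ(χ_H) = ℚ(f(χ))`), and `f(χ) = ± χ` on `H ∩ yN`;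
(3) for every set `S` of automorphisms of `ℂ`, for instance `S = 𝓗`, the actions of `S` on
`Irr_{p'}(G)` and `Irr_{p'}(N_G(P))` are permutation isomorphic if and only if this is true for
`(H, P)`; so Q1 for `(G, P)` is equivalent to Q1 for `(H, P)`;
(4) in particular, if the centraliser of every element of `P ∩ yN` is contained in `N_G(P)`, then
the actions of all automorphisms of `ℂ` on `Irr_{p'}(G)` and on `Irr_{p'}(N_G(P))` are permutation
isomorphic, so Q1 holds for `(G, P)`. -/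
theorem result (G : Type) [Group G] [Finite G] (p : ℕ) [Fact p.Prime]
    (N H : Subgroup G) (hN : N.Normal) (hNt : N ≠ ⊤) (P : Sylow p G) (y : G) (hy : y ∈ P)
    (hgen : N ⊔ Subgroup.zpowers y = ⊤) (hPH : (P : Subgroup G) ≤ H)
    (hC : ∀ x ∈ P, y⁻¹ * x ∈ N → Subgroup.centralizer ({x} : Set G) ≤ H) :
    Subgroup.normalizer ((P : Subgroup G) : Set G) ≤ H ∧
    (∃ f : IrrPrime p G ≃ IrrPrime p H,
      (∀ (σ : ℂ ≃+* ℂ) (χ : IrrPrime p G),
        (∃ h : (fun g => σ ((χ : G → ℂ) g)) ∈ IrrPrime p G,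
          (f ⟨fun g => σ ((χ : G → ℂ) g), h⟩ : H → ℂ) = fun k => σ ((f χ : H → ℂ) k)) ∧
        ((∀ k : H, σ ((χ : G → ℂ) k) = (χ : G → ℂ) k) ↔
          ∀ g : G, σ ((χ : G → ℂ) g) = (χ : G → ℂ) g) ∧
        ((∀ k : H, σ ((f χ : H → ℂ) k) = (f χ : H → ℂ) k) ↔
          ∀ g : G, σ ((χ : G → ℂ) g) = (χ : G → ℂ) g)) ∧
      ∀ χ : IrrPrime p G, ∃ ε : ℤ, (ε = 1 ∨ ε = -1) ∧
        ∀ k : H, y⁻¹ * (k : G) ∈ N → (χ : G → ℂ) k = ε * (f χ : H → ℂ) k) ∧
    (∀ S : Set (ℂ ≃+* ℂ), PermIso p S G (Subgroup.normalizer ((P : Subgroup G) : Set G)) ↔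
      PermIso p S H
        (Subgroup.normalizer (((P.subtype hPH : Sylow p H) : Subgroup H) : Set H))) ∧
    (PermIso p (HH p) G (Subgroup.normalizer ((P : Subgroup G) : Set G)) ↔
      PermIso p (HH p) H
        (Subgroup.normalizer (((P.subtype hPH : Sylow p H) : Subgroup H) : Set H))) ∧
    ((∀ x ∈ P, y⁻¹ * x ∈ N → Subgroup.centralizer ({x} : Set G) ≤
        Subgroup.normalizer ((P : Subgroup G) : Set G)) →
      ∀ S : Set (ℂ ≃+* ℂ), PermIso p S G (Subgroup.normalizer ((P : Subgroup G) : Set G))) := by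
  have := Fintype.ofFinite G
  have d : Pool.Agent.Q21.CO.Dat p N y H P := ⟨hN, hNt, hgen, hy, hPH, hC⟩
  have hNH := Pool.Agent.Q1.MK.norm_le d
  have key : ∀ (S : Set (ℂ ≃+* ℂ)) {L : Subgroup G}, Pool.Agent.Q21.CO.Dat p N y L P →
      PermIso p S G L := by
    intro S L d'
    obtain ⟨f, -, h1, -⟩ := Pool.Agent.Q1.MK.corr d'
    exact ⟨f, fun σ _ χ => h1 σ χ⟩
  obtain ⟨f, h1, h2, -, h3⟩ := Pool.Agent.Q1.MK.corr d
  have e : ∀ S : Set (ℂ ≃+* ℂ), PermIso p S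
      (Subgroup.normalizer (((P.subtype hPH : Sylow p H) : Subgroup H) : Set H))
      (Subgroup.normalizer ((P : Subgroup G) : Set G)) := by
    intro S
    refine ⟨Pool.Agent.Q1.MK.trn (Pool.Agent.Q1.MK.nrm P hPH hNH), fun σ _ χ => ?_⟩
    refine ⟨⟨Pool.Agent.Y824.GA.S_IRR _ σ _ χ.2.1, ?_⟩, rfl⟩
    obtain ⟨n, hn, hn'⟩ := χ.2.2
    refine ⟨n, ?_, hn'⟩
    change (n : ℂ) = σ ((χ : (Subgroup.normalizer
      (((P.subtype hPH : Sylow p H) : Subgroup H) : Set H)) → ℂ) 1)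
    rw [← hn, map_natCast]
  have main : ∀ S : Set (ℂ ≃+* ℂ),
      PermIso p S G (Subgroup.normalizer ((P : Subgroup G) : Set G)) ↔
      PermIso p S H
        (Subgroup.normalizer (((P.subtype hPH : Sylow p H) : Subgroup H) : Set H)) := fun S =>
    ⟨fun h => pi_trans (pi_symm (key S d)) (pi_trans h (pi_symm (e S))),
      fun h => pi_trans (key S d) (pi_trans h (e S))⟩
  refine ⟨hNH, ⟨f, fun σ χ => ⟨h2 σ χ, h3 σ χ⟩, fun χ => ?_⟩, main, main _, fun h S => ?_⟩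
  · obtain ⟨ε, h4, h5, -⟩ := h1 χ
    exact ⟨ε, h4, h5⟩
  · exact key S ⟨hN, hNt, hgen, hy, Subgroup.le_normalizer, h⟩

end Pool.Agent.Results.MP_1ae3da_al.CosetReduction
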