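import Pool.Agent.Q17.TC.All2

/-!
# Galois-equivariant McKay bijections relative to a normal subgroup

`N` is a normal subgroup of an arbitrary finite group `G` and `y` is a `p`-element of order `p`
modulo `N` which is central modulo `N`. The hypothesis is on the centralisers in `N` of the
`p`-elements of the coset `yN` only. The bijections commute with all automorphisms of `ℂ` and with
all automorphisms of `G` which preserve the data, and corresponding characters are congruent up to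
a sign on `C_G(y)`.
-/

open scoped Classical
open Pool.Agent.H254R3.IN

namespace Pool.Agent.Results.MP_1ae3da_al.RelativeGalois

/-- The irreducible characters of `G` of degree prime to `p`. -/
def IrrPrime (p : ℕ) (G : Type) [Group G] : Set (G → ℂ) :=
  {χ | IsIrr χ ∧ ∃ n : ℕ, (n : ℂ) = χ 1 ∧ ¬ p ∣ n}

/-- There is a bijection `f : Irr_{p'}(K) → Irr_{p'}(L)` with `f(χ^σ) = f(χ)^σ` for all `σ ∈ S`. -/
def PermIso (p : ℕ) (S : Set (ℂ ≃+* ℂ)) (K L : Type) [Group K] [Group L] : Prop :=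
  ∃ f : IrrPrime p K ≃ IrrPrime p L, ∀ σ ∈ S, ∀ χ : IrrPrime p K,
    ∃ h : (fun g => σ ((χ : K → ℂ) g)) ∈ IrrPrime p K,
      (f ⟨fun g => σ ((χ : K → ℂ) g), h⟩ : L → ℂ) = fun k => σ ((f χ : L → ℂ) k)

/-- The irreducible characters of the normal subgroup `N` which are invariant under `y`. -/
def Inv {G : Type} [Group G] (N : Subgroup G) [N.Normal] (y : G) : Type :=
  {θ : N → ℂ // IsIrr θ ∧ ∀ n : N, θ (MulAut.conjNormal y n) = θ n}

/-- The character `χ` of `G` lies over the irreducible character `θ` of `N`: their inner product on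
`N` is not zero. -/
def LiesOver {G : Type} [Group G] [Fintype G] (N : Subgroup G) (χ : G → ℂ) (θ : N → ℂ) : Prop :=
  ∑ n : N, χ n * θ n⁻¹ ≠ 0

/-- The irreducible characters of `G` which lie over a `y`-invariant irreducible character of
`N`. -/
def Above {G : Type} [Group G] [Fintype G] (N : Subgroup G) [N.Normal] (y : G) : Type :=
  {χ : G → ℂ // IsIrr χ ∧ ∃ θ : Inv N y, LiesOver N χ θ.1}

/-- The hypotheses on `(G, N, y, P, H)`: `y ∈ P` has order `p` modulo `N` and is central modulo `N`;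
`H` contains the Sylow `p`-subgroup `P` and `C_N(x)` for all `x ∈ P ∩ yN`, and `G = NH`. -/
def Hyp {G : Type} [Group G] (p : ℕ) (N : Subgroup G) (y : G) (P : Sylow p G) (H : Subgroup G) :
    Prop :=
  (y ∈ P ∧ y ∉ N ∧ y ^ p ∈ N ∧ ∀ g : G, g * y * g⁻¹ * y⁻¹ ∈ N) ∧
    (P : Subgroup G) ≤ H ∧ (∀ g : G, ∃ n ∈ N, ∃ h ∈ H, g = n * h) ∧
    ∀ x ∈ P, y⁻¹ * x ∈ N → ∀ n ∈ N, Commute n x → n ∈ H

/-- `θ` (a character of `N`) and `η` (a character of `N ∩ H`) correspond: they have irreducible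
extensions `θ'`, `η'` to `N⟨y⟩` and `N⟨y⟩ ∩ H` which agree up to a sign `ε` outside `N`. -/
def Correspond {G : Type} [Group G] (N H : Subgroup G) (y : G) (θ : N → ℂ)
    (η : N.subgroupOf H → ℂ) : Prop :=
  ∃ (θ' : (N ⊔ Subgroup.zpowers y : Subgroup G) → ℂ)
    (η' : (N ⊔ Subgroup.zpowers y).subgroupOf H → ℂ) (ε : ℤ), IsIrr θ' ∧ IsIrr η' ∧
    (∀ (n : N) (hn : (n : G) ∈ N ⊔ Subgroup.zpowers y), θ' ⟨n, hn⟩ = θ n) ∧
    (∀ (m : N.subgroupOf H) (hm : (m : H) ∈ (N ⊔ Subgroup.zpowers y).subgroupOf H),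
      η' ⟨m, hm⟩ = η m) ∧ (ε = 1 ∨ ε = -1) ∧
    ∀ (h : H) (hk : (h : G) ∈ N ⊔ Subgroup.zpowers y)
      (hk' : h ∈ (N ⊔ Subgroup.zpowers y).subgroupOf H), (h : G) ∉ N →
        θ' ⟨h, hk⟩ = ε * η' ⟨h, hk'⟩

/-- The bijections `F` and `f` are compatible: `χ` lies over `θ` if and only if `f χ` lies over
`F θ`, and then `χ(1) / θ(1) = (f χ)(1) / (F θ)(1)`. -/
def Compatible {G : Type} [Group G] [Fintype G] {N H : Subgroup G} [N.Normal] {y : G}
    {hyH : y ∈ H} (F : Inv N y ≃ Inv (N.subgroupOf H) ⟨y, hyH⟩)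
    (f : Above N y ≃ Above (N.subgroupOf H) ⟨y, hyH⟩) : Prop :=
  (∀ χ θ, LiesOver N χ.1 θ.1 ↔ LiesOver (N.subgroupOf H) (f χ).1 (F θ).1) ∧
    ∀ χ θ, LiesOver N χ.1 θ.1 → (f χ).1 1 / (F θ).1 1 = χ.1 1 / θ.1 1

/-- The automorphism `α` of `G` stabilises `N`, `H` and the coset `yN`. -/
def Stabilises {G : Type} [Group G] (N H : Subgroup G) (y : G) (α : G ≃* G) : Prop :=
  (∀ g, α g ∈ N ↔ g ∈ N) ∧ (∀ g, α g ∈ H ↔ g ∈ H) ∧ y⁻¹ * α y ∈ N

/-- `F (σ ∘ θ ∘ α) = σ ∘ F θ ∘ α` for all automorphisms `σ` of `ℂ` and all automorphisms `α` of `G`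
which stabilise `N`, `H` and `yN`. -/
def EquivariantN {G : Type} [Group G] {N H : Subgroup G} [N.Normal] {y : G} {hyH : y ∈ H}
    (F : Inv N y ≃ Inv (N.subgroupOf H) ⟨y, hyH⟩) : Prop :=
  ∀ (σ : ℂ ≃+* ℂ) (α : G ≃* G), Stabilises N H y α → ∀ θ θ' : Inv N y,
    (∀ n n' : N, (n' : G) = α n → θ'.1 n = σ (θ.1 n')) →
      ∀ m m' : N.subgroupOf H, ((m' : H) : G) = α (m : H) → (F θ').1 m = σ ((F θ).1 m')

/-- `f (σ ∘ χ ∘ α) = σ ∘ f χ ∘ α` for all automorphisms `σ` of `ℂ` and all automorphisms `α` of `G`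
which stabilise `N`, `H` and `yN`. -/
def Equivariant {G : Type} [Group G] [Fintype G] {N H : Subgroup G} [N.Normal] {y : G}
    {hyH : y ∈ H} (f : Above N y ≃ Above (N.subgroupOf H) ⟨y, hyH⟩) : Prop :=
  ∀ (σ : ℂ ≃+* ℂ) (α : G ≃* G), Stabilises N H y α → ∀ χ χ' : Above N y,
    (∀ g, χ'.1 g = σ (χ.1 (α g))) → ∀ k k' : H, (k' : G) = α k → (f χ').1 k = σ ((f χ).1 k')

/-- For every `χ` there is a sign `ε` such that `χ(k) ≡ ε (f χ)(k)` for all `k ∈ H` which commute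
with `y`, modulo the maximal ideal of every valuation ring of `ℂ` whose maximal ideal contains
`p`. -/
def Congruent {G : Type} [Group G] [Fintype G] {N H : Subgroup G} [N.Normal] {y : G}
    {hyH : y ∈ H} (p : ℕ) (f : Above N y ≃ Above (N.subgroupOf H) ⟨y, hyH⟩) : Prop :=
  ∀ χ, ∃ ε : ℤ, (ε = 1 ∨ ε = -1) ∧ ∀ O : ValuationSubring ℂ, (p : ℂ) ∈ O.nonunits →
    ∀ k : H, Commute y (k : G) → χ.1 k - ε * (f χ).1 k ∈ O.nonunits

/-- `g : Irr_{p'}(G) → Irr_{p'}(H)` is a restriction of `f`. -/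
def Restricts {G : Type} [Group G] [Fintype G] {p : ℕ} {N H : Subgroup G} [N.Normal] {y : G}
    {hyH : y ∈ H} (f : Above N y ≃ Above (N.subgroupOf H) ⟨y, hyH⟩)
    (g : IrrPrime p G ≃ IrrPrime p H) : Prop :=
  ∀ χ : IrrPrime p G, ∃ χ' : Above N y, χ'.1 = (χ : G → ℂ) ∧ (f χ').1 = (g χ : H → ℂ)

/-- `θ` and `F θ` correspond for all `θ`. -/
def Corresponding {G : Type} [Group G] {N H : Subgroup G} [N.Normal] {y : G} {hyH : y ∈ H}
    (F : Inv N y ≃ Inv (N.subgroupOf H) ⟨y, hyH⟩) : Prop :=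
  ∀ θ, Correspond N H y θ.1 (F θ).1

/-- There are a bijection `F` from the `y`-invariant irreducible characters of `N` onto those of
`N ∩ H`, a bijection `f` from the irreducible characters of `G` over `y`-invariant characters of `N`
onto those of `H` over `y`-invariant characters of `N ∩ H`, and a bijection `g` from `Irr_{p'}(G)`
onto `Irr_{p'}(H)` with the following properties. -/
def Bijections {G : Type} [Group G] [Fintype G] (p : ℕ) (N H : Subgroup G) [N.Normal] (y : G)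
    (hyH : y ∈ H) : Prop :=
  ∃ (F : Inv N y ≃ Inv (N.subgroupOf H) ⟨y, hyH⟩)
    (f : Above N y ≃ Above (N.subgroupOf H) ⟨y, hyH⟩) (g : IrrPrime p G ≃ IrrPrime p H),
    EquivariantN F ∧ Equivariant f ∧ Corresponding F ∧ Compatible F f ∧ Congruent p f ∧
      Restricts f g

theorem pi_trans {p : ℕ} {S : Set (ℂ ≃+* ℂ)} {K L M : Type} [Group K] [Group L] [Group M]
    (h1 : PermIso p S K L) (h2 : PermIso p S L M) : PermIso p S K M := by
  obtain ⟨f, hf⟩ := h1
  obtain ⟨g, hg⟩ := h2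
  refine ⟨f.trans g, fun σ hσ χ => ?_⟩
  obtain ⟨h3, h4⟩ := hf σ hσ χ
  obtain ⟨h5, h6⟩ := hg σ hσ (f χ)
  refine ⟨h3, ?_⟩
  have h7 : f ⟨fun g => σ ((χ : K → ℂ) g), h3⟩ = ⟨fun k => σ ((f χ : L → ℂ) k), h5⟩ :=
    Subtype.ext h4
  change (g (f ⟨fun g => σ ((χ : K → ℂ) g), h3⟩) : M → ℂ) = _
  rw [h7]
  exact h6

theorem pi_symm {p : ℕ} {S : Set (ℂ ≃+* ℂ)} {K L : Type} [Group K] [Group L]
    (h1 : PermIso p S K L) : PermIso p S L K := by
  obtain ⟨f, hf⟩ := h1
  refine ⟨f.symm, fun σ hσ χ => ?_⟩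
  obtain ⟨h3, h4⟩ := hf σ hσ (f.symm χ)
  rw [Equiv.apply_symm_apply] at h4
  have h5 : (fun k => σ ((χ : L → ℂ) k)) ∈ IrrPrime p L := by
    rw [← h4]
    exact (f _).2
  refine ⟨h5, ?_⟩
  have h6 : f ⟨fun g => σ ((f.symm χ : K → ℂ) g), h3⟩ = ⟨fun k => σ ((χ : L → ℂ) k), h5⟩ :=
    Subtype.ext h4
  rw [← h6, Equiv.symm_apply_apply]

theorem gal_mem {p : ℕ} {K : Type} [Group K] [Finite K] (σ : ℂ ≃+* ℂ) (χ : IrrPrime p K) :
    (fun g => σ ((χ : K → ℂ) g)) ∈ IrrPrime p K := by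
  have : Fintype K := Fintype.ofFinite K
  refine ⟨Pool.Agent.Q17.TC.irr_gal σ χ.2.1, ?_⟩
  obtain ⟨n, hn, hp⟩ := χ.2.2
  refine ⟨n, ?_, hp⟩
  change (n : ℂ) = σ ((χ : K → ℂ) 1)
  rw [← hn, map_natCast]

theorem ov_iff {G : Type} [Group G] [Fintype G] {N : Subgroup G} {χ : G → ℂ} {θ : N → ℂ} :
    LiesOver N χ θ ↔ Pool.Agent.Q17.TC.Ov N χ θ := by
  unfold LiesOver Pool.Agent.Q17.TC.Ov Pool.Agent.Helper884.IC.B
  rw [ne_eq, ne_eq, mul_eq_zero, inv_eq_zero]
  constructor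
  · intro h h1
    rcases h1 with h1 | h1
    · exact Pool.Agent.Helper884.IC.cardG_ne h1
    · exact h h1
  · intro h h1
    exact h (Or.inr h1)

/-- comparison of the two definitions -/
def cmp {G : Type} [Group G] [Fintype G] (N : Subgroup G) [N.Normal] (y : G) :
    Above N y ≃ Pool.Agent.Q17.TC.Ab N y where
  toFun χ := ⟨χ.1, χ.2.1, by
    obtain ⟨θ, hθ⟩ := χ.2.2
    exact ⟨θ, ov_iff.mp hθ⟩⟩
  invFun χ := ⟨χ.1, χ.2.1, by
    obtain ⟨θ, hθ⟩ := χ.2.2
    exact ⟨θ, ov_iff.mpr hθ⟩⟩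
  left_inv _ := rfl
  right_inv _ := rfl

/-- **Theorem.** Let `G` be a finite group, `N` a normal subgroup, `P` a Sylow `p`-subgroup of `G`
and `y ∈ P ∖ N` with `y ^ p ∈ N` and `[G, y] ≤ N` (so `G / N` is arbitrary, with a central subgroup
of order `p`). Let `H ≥ P` be a subgroup with `G = NH` and `C_N(x) ≤ H` for all `x ∈ P ∩ yN`. Then
(1) `N_G(P)` and `C_G(y)` are contained in `H`;
(2) there are a bijection `F` from the `y`-invariant irreducible characters of `N` onto those of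
`N ∩ H` and a bijection `f` from the irreducible characters of `G` over `y`-invariant characters of
`N` onto those of `H` over `y`-invariant characters of `N ∩ H`, such that
(a) `F` and `f` commute with all automorphisms of `ℂ` and with all automorphisms of `G` which
stabilise `N`, `H` and `yN`;
(b) `θ` and `F θ` have extensions to `N⟨y⟩` and `N⟨y⟩ ∩ H` that agree up to a sign outside `N`;
(c) `χ` lies over `θ` if and only if `f χ` lies over `F θ`, and then
`χ(1) / θ(1) = (f χ)(1) / (F θ)(1)`;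
(d) for every `χ` there is a sign `ε` with `χ ≡ ε f χ` on `C_G(y)` modulo all maximal ideals above
`p`, in particular `χ(1) ≡ ε (f χ)(1)` modulo `p`;
(e) every irreducible character of `G` of degree prime to `p` is in the domain of `f`, and `f` maps
these onto the irreducible characters of `H` of degree prime to `p`;
(3) for every set `S` of automorphisms of `ℂ`, for instance `S = 𝓗`, the actions of `S` on
`Irr_{p'}(G)` and `Irr_{p'}(N_G(P))` are permutation isomorphic if and only if this is true for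
`(H, P)`; so Q1 for `(G, P)` is equivalent to Q1 for `(H, P)`;
(4) if the assumptions on `H` hold for `N_G(P)`, then the actions of all automorphisms of `ℂ` on
`Irr_{p'}(G)` and on `Irr_{p'}(N_G(P))` are permutation isomorphic, so Q1 holds for `(G, P)`. -/
theorem result (G : Type) [Group G] [Fintype G] (p : ℕ) [Fact p.Prime] (N H : Subgroup G)
    [N.Normal] (P : Sylow p G) (y : G) (hyp : Hyp p N y P H) (hyH : y ∈ H) :
    (Subgroup.normalizer ((P : Subgroup G) : Set G) ≤ H ∧ ∀ g : G, Commute y g → g ∈ H) ∧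
    Bijections p N H y hyH ∧
    (∀ (S : Set (ℂ ≃+* ℂ)) (hPH : (P : Subgroup G) ≤ H),
      PermIso p S G (Subgroup.normalizer ((P : Subgroup G) : Set G)) ↔
      PermIso p S H
        (Subgroup.normalizer (((P.subtype hPH : Sylow p H) : Subgroup H) : Set H))) ∧
    (Hyp p N y P (Subgroup.normalizer ((P : Subgroup G) : Set G)) →
      PermIso p Set.univ G (Subgroup.normalizer ((P : Subgroup G) : Set G))) := by
  have toTD : ∀ {L : Subgroup G}, Hyp p N y P L → Pool.Agent.Q17.TC.TD p N y L P :=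
    fun {L} h => ⟨inferInstance, h.1.2.1, h.1.2.2.1, h.1.2.2.2, h.1.1, h.2.1, h.2.2.1, h.2.2.2⟩
  have d := toTD hyp
  have hNH := (Pool.Agent.Q17.TC.main Pool.Agent.Q17.TC.parts d).1
  have key : ∀ {L : Subgroup G}, Pool.Agent.Q17.TC.TD p N y L P →
      PermIso p Set.univ G L := by
    intro L d'
    obtain ⟨-, F, f, g, -, -, -, -, -, -, -, -, -, h1, -⟩ := Pool.Agent.Q17.TC.main2
      Pool.Agent.Q17.TC.parts2 Pool.Agent.Q222.TC.t_CM Pool.Agent.Q222.TC.t_INT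
      Pool.Agent.Q17.TC.gdx d'
    refine ⟨g, fun σ _ χ => ?_⟩
    have h2 : (fun x => σ ((χ : G → ℂ) x)) ∈ IrrPrime p G := gal_mem σ χ
    refine ⟨h2, funext fun k => ?_⟩
    exact h1 σ (MulEquiv.refl G) ⟨fun _ => Iff.rfl, fun _ => Iff.rfl, by
      change y⁻¹ * y ∈ N
      rw [inv_mul_cancel]
      exact N.one_mem⟩ χ ⟨_, h2⟩ (fun _ => rfl) k k rfl
  refine ⟨⟨hNH, fun g hg => d.cen_le Pool.Agent.Q17.TC.parts.ti hg⟩, ?_, ?_, fun h => key (toTD h)⟩
  · obtain ⟨-, F, f, g, h1, -, h2, h3, h4, h5, h6, h7, -, -, -⟩ := Pool.Agent.Q17.TC.main2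
      Pool.Agent.Q17.TC.parts2 Pool.Agent.Q222.TC.t_CM Pool.Agent.Q222.TC.t_INT
      Pool.Agent.Q17.TC.gdx d
    refine ⟨F, (cmp N y).trans (f.trans (cmp (N.subgroupOf H) ⟨y, hyH⟩).symm), g, ?_, ?_, ?_,
      ⟨?_, ?_⟩, ?_, ?_⟩
    · intro σ α hα
      exact h2 σ α ⟨hα.1, hα.2.1, hα.2.2⟩
    · intro σ α hα χ χ' h8
      exact h5 σ α ⟨hα.1, hα.2.1, hα.2.2⟩ (cmp N y χ) (cmp N y χ') h8
    · intro θ
      obtain ⟨θ', η', ε', r⟩ := h1 θ
      refine ⟨θ', η', ε', r.ext, r.ext', fun n hn => r.res n, fun m hm => r.res' m, ?_,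
        fun h hk hk' hn => r.val h hk hn⟩
      rcases r.sgn with h | h
      · exact Or.inl h
      · exact Or.inr h.1
    · intro χ θ
      exact ov_iff.trans ((h3 (cmp N y χ) θ).trans ov_iff.symm)
    · intro χ θ ho
      have h7 := h4 (cmp N y χ) θ (ov_iff.mp ho)
      have h8 : θ.1 1 ≠ 0 := θ.2.1.one_ne
      have h9 : (F θ).1 1 ≠ 0 := (F θ).2.1.one_ne
      exact (div_eq_div_iff h9 h8).mpr h7
    · intro χ
      obtain ⟨ε, h8, h9⟩ := h6 (cmp N y χ)
      refine ⟨ε, ?_, h9⟩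
      rcases h8 with h | h
      · exact Or.inl h
      · exact Or.inr h.1
    · intro χ
      obtain ⟨χ', h8, h9⟩ := h7 χ
      exact ⟨(cmp N y).symm χ', h8, h9⟩
  · intro S hPH
    have e : PermIso p S
        (Subgroup.normalizer (((P.subtype hPH : Sylow p H) : Subgroup H) : Set H))
        (Subgroup.normalizer ((P : Subgroup G) : Set G)) := by
      refine ⟨Pool.Agent.Q1.MK.trn (Pool.Agent.Q1.MK.nrm P hPH hNH), fun σ _ χ => ?_⟩
      exact ⟨gal_mem σ χ, rfl⟩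
    have hS : ∀ {K L : Type} [Group K] [Group L], PermIso p Set.univ K L → PermIso p S K L := by
      intro K L _ _ h
      obtain ⟨f, hf⟩ := h
      exact ⟨f, fun σ _ χ => hf σ (Set.mem_univ σ) χ⟩
    exact ⟨fun h => pi_trans (pi_symm (hS (key d))) (pi_trans h (pi_symm e)),
      fun h => pi_trans (hS (key d)) (pi_trans h e)⟩

end Pool.Agent.Results.MP_1ae3da_al.RelativeGalois
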