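import Pool.Agent.Q17.AM.Sng

/-!
# The McKay–Galois equalities for one automorphism and for its powers

`IsIrr χ` (from `Pool.Agent.H254R3.IN.Defs`) says that `χ` is an irreducible complex character.
-/

set_option autoImplicit false

open scoped Classical

namespace Pool.Agent.Results.MP_1ae3da_al.SingleAutomorphism

open Pool.Agent.H254R3.IN (IsIrr)

/-- the irreducible characters of `G` of degree prime to `p` -/
def irrPrime (p : ℕ) (G : Type) [Group G] : Set (G → ℂ) :=
  {χ | IsIrr χ ∧ ∃ n : ℕ, (n : ℂ) = χ 1 ∧ ¬ p ∣ n}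

/-- the members of `X` fixed by `s` -/
def fixed {G : Type} (X : Set (G → ℂ)) (s : ℂ ≃+* ℂ) : Set (G → ℂ) :=
  {χ | χ ∈ X ∧ ∀ g, s (χ g) = χ g}

/-- the order of the automorphism `s` on the `n`-th roots of unity is prime to `p` -/
def OrderPrimeTo (p n : ℕ) (s : ℂ ≃+* ℂ) : Prop :=
  ∃ j : ℕ, Nat.Coprime j p ∧ ∀ ζ : ℂ, ζ ^ n = 1 → (s ^ j) ζ = ζ

/-- the wreath product of `G` with the cyclic group of order `r` in its regular action -/
abbrev WreathCyclic (G : Type) [Group G] (r : ℕ) : Type :=
  (Multiplicative (ZMod r) → G) ⋊[mulAutArrow (G := Multiplicative (ZMod r))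
    (A := Multiplicative (ZMod r)) (M := G)] Multiplicative (ZMod r)

/-- **Theorem.** Let `p` be a prime. Let `X` be a class of groups closed under isomorphism and finite
direct powers (for instance all groups, or all abelian groups) and let `Y` be a class of finite groups
closed under the wreath products with the cyclic groups of prime order different from `p` (for
instance all finite groups, or the groups with nonabelian composition factors in a given set). Let
`s` be an automorphism of `ℂ` such that for all `G` in `Y` with a Sylow `p`-subgroup `P` in `X` the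
groups `G` and `N_G(P)` have the same number of irreducible characters of degree prime to `p` fixed
by `s`. Then

* (1) the same is true for `s ^ n`, for all `n` which are not divisible by `p`;
* (2) for all `G` in `Y` with a Sylow `p`-subgroup `P` in `X` such that the order of `s` on the
  `|G|`-th roots of unity is prime to `p` there is a bijection from the set of irreducible characters
  of `G` of degree prime to `p` onto that for `N_G(P)` which commutes with `s`. -/
theorem result (p : ℕ) [Fact p.Prime] (X Y : ∀ (P : Type) [Group P], Prop)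
    (hX : ∀ (P Q : Type) [Group P] [Group Q], Nonempty (P ≃* Q) → X P → X Q)
    (hX' : ∀ (P : Type) [Group P] (n : ℕ), 1 ≤ n → X P → X (Fin n → P))
    (hY : ∀ r : ℕ, r.Prime → r ≠ p → ∀ (G : Type) [Group G] [Finite G], Y G →
      Y (WreathCyclic G r))
    (s : ℂ ≃+* ℂ)
    (h : ∀ (G : Type) [Group G] [Finite G], Y G → ∀ P : Sylow p G, X P →
      (fixed (irrPrime p G) s).ncard =
        (fixed (irrPrime p (Subgroup.normalizer ((P : Subgroup G) : Set G))) s).ncard) :
    (∀ n : ℕ, ¬ p ∣ n → ∀ (G : Type) [Group G] [Finite G], Y G → ∀ P : Sylow p G, X P →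
      (fixed (irrPrime p G) (s ^ n)).ncard =
        (fixed (irrPrime p (Subgroup.normalizer ((P : Subgroup G) : Set G))) (s ^ n)).ncard) ∧
    ∀ (G : Type) [Group G] [Finite G], Y G → ∀ P : Sylow p G, X P →
      OrderPrimeTo p (Nat.card G) s →
      ∃ f : irrPrime p G ≃ irrPrime p (Subgroup.normalizer ((P : Subgroup G) : Set G)),
        ∀ χ χ' : irrPrime p G, (χ'.1 = fun g => s (χ.1 g)) →
          (f χ').1 = fun g => s ((f χ).1 g) := by
  have hC : ∀ (r : ℕ) [Fact r.Prime], p ≠ r → ∀ (G : Type) [Group G] [Fintype G]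
      (P : Subgroup G), ((Finite G → Y G) ∧ X P) →
      ((Finite (Pool.Agent.Q17.AM.Wc G r) → Y (Pool.Agent.Q17.AM.Wc G r)) ∧
        X (Pool.Agent.Q17.AM.Dw r P)) := by
    rintro r _ hpr G _ _ P ⟨h2, h3⟩
    refine ⟨fun _ => hY r Fact.out hpr.symm G (h2 inferInstance),
      hX _ _ ⟨(Pool.Agent.Q17.AM.eDw P).symm⟩ ?_⟩
    have : NeZero r := ⟨(Fact.out : r.Prime).ne_zero⟩
    exact Pool.Agent.Q17.AM.Cl.fun (X := X) ⟨hX, hX'⟩ h3
  have h' : Pool.Agent.Q17.AM.Eqs p (fun G _ P => (Finite G → Y G) ∧ X P) s := by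
    rintro G _ _ P ⟨h2, h3⟩
    exact h G (h2 inferInstance) P h3
  refine ⟨fun n hn G _ _ hG P hP => ?_, fun G _ _ hG P hP hs => ?_⟩
  · have : Fintype G := Fintype.ofFinite G
    exact Pool.Agent.Q17.AM.eqs_pow hC n (fun h0 => hn (h0 ▸ dvd_zero p)) hn h' G P
      ⟨fun _ => hG, hP⟩
  · have : Fintype G := Fintype.ofFinite G
    exact Pool.Agent.Q17.AM.eqs_equiv hC h' G P ⟨fun _ => hG, hP⟩ hs

end Pool.Agent.Results.MP_1ae3da_al.SingleAutomorphism
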